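import Pool.Agent.W78.GM.Defs
import Pool.Agent.H376R2.MR.Selw
import Pool.Agent.H452R2.Om.Mert

/-!
Project GM (helper78), task GM-O (helper64): half-dimensional Selberg weights for the primes
`≡ 1 mod 4`.
-/

set_option autoImplicit false

namespace Pool.Agent.W64.GM

open Finset
open scoped ArithmeticFunction.Moebius
open Pool.Agent.H376R2.MR

/-- all prime divisors are `≡ 1 mod 4` -/
def Q1 (n : ℕ) : Prop := ∀ p : ℕ, p.Prime → p ∣ n → p % 4 = 1

lemma Q1_one : Q1 1 := fun p hp h => absurd (Nat.dvd_one.1 h) hp.one_lt.ne'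

lemma Q1_dvd {a b : ℕ} (h : Q1 b) (hab : a ∣ b) : Q1 a := fun p hp hpa => h p hp (hpa.trans hab)

lemma Q1_mul {a b : ℕ} : Q1 (a * b) ↔ Q1 a ∧ Q1 b := by
  constructor
  · exact fun h => ⟨Q1_dvd h (Dvd.intro _ rfl), Q1_dvd h (Dvd.intro_left _ rfl)⟩
  · rintro ⟨h1, h2⟩ p hp hpd
    rcases (Nat.Prime.dvd_mul hp).1 hpd with h | h
    · exact h1 p hp h
    · exact h2 p hp h

open scoped Classical in
/-- `μ²(m)/φ(m)` on the integers with prime divisors `≡ 1 mod 4` -/
noncomputable def sh_g (m : ℕ) : ℝ := if Q1 m then sw_g m else 0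

theorem sh_g_nonneg (m : ℕ) : 0 ≤ sh_g m := by
  unfold sh_g; split_ifs
  · exact sw_g_nonneg m
  · exact le_rfl

theorem sh_g_one : sh_g 1 = 1 := by
  unfold sh_g; rw [if_pos Q1_one, sw_g_one]

theorem sh_g_of {m : ℕ} (h : Q1 m) : sh_g m = sw_g m := if_pos h

theorem sh_g_not {m : ℕ} (h : ¬ Q1 m) : sh_g m = 0 := if_neg h

theorem sh_g_mul {a b : ℕ} (h : Nat.Coprime a b) : sh_g (a * b) = sh_g a * sh_g b := by
  by_cases ha : Q1 a
  · by_cases hb : Q1 b
    · rw [sh_g_of (Q1_mul.2 ⟨ha, hb⟩), sh_g_of ha, sh_g_of hb, sw_g_mul h]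
    · rw [sh_g_not (fun h2 => hb (Q1_mul.1 h2).2), sh_g_not hb, mul_zero]
  · rw [sh_g_not (fun h2 => ha (Q1_mul.1 h2).1), sh_g_not ha, zero_mul]

/-- the total mass -/
noncomputable def sh_G (D : ℕ) : ℝ := ∑ n ∈ Icc 1 D, sh_g n

theorem sh_G_pos {D : ℕ} (hD : 1 ≤ D) : 0 < sh_G D := by
  have h1 : sh_g 1 ≤ sh_G D :=
    Finset.single_le_sum (f := sh_g) (fun i _ => sh_g_nonneg i) (Finset.mem_Icc.2 ⟨le_rfl, hD⟩)
  rw [sh_g_one] at h1
  linarith

theorem sh_G_nonneg (D : ℕ) : 0 ≤ sh_G D := Finset.sum_nonneg fun i _ => sh_g_nonneg i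

/-- the key bound for `|l d| ≤ 1` -/
theorem sh_key (D d : ℕ) (hd : Squarefree d) :
    (d : ℝ) * ∑ m ∈ (Icc 1 D).filter (fun m => d ∣ m), sh_g m ≤ sh_G D := by
  by_cases hq : Q1 d
  swap
  · have h0 : ∑ m ∈ (Icc 1 D).filter (fun m => d ∣ m), sh_g m = 0 := by
      apply Finset.sum_eq_zero
      intro m hm
      rw [Finset.mem_filter] at hm
      exact sh_g_not (fun h => hq (Q1_dvd h hm.2))
    rw [h0, mul_zero]
    exact sh_G_nonneg D
  have hd0 : 0 < d := Nat.pos_of_ne_zero hd.ne_zero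
  set T : Finset ℕ := (Icc 1 D).filter (fun m => d ∣ m ∧ Squarefree m) with hT
  have h1 : ∑ m ∈ (Icc 1 D).filter (fun m => d ∣ m), sh_g m = ∑ m ∈ T, sh_g m := by
    symm
    apply Finset.sum_subset
    · intro m hm
      rw [hT, Finset.mem_filter] at hm
      exact Finset.mem_filter.2 ⟨hm.1, hm.2.1⟩
    · intro m hm hmT
      rw [Finset.mem_filter] at hm
      have : ¬ Squarefree m := fun hs => hmT (Finset.mem_filter.2 ⟨hm.1, hm.2, hs⟩)
      unfold sh_g sw_g
      rw [if_neg this]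
      simp
  have h2 : ∀ m ∈ T, (d : ℝ) * sh_g m = ∑ k ∈ d.divisors, sh_g (k * (m / d)) := by
    intro m hm
    rw [hT, Finset.mem_filter] at hm
    obtain ⟨_, ⟨c, rfl⟩, hs⟩ := hm
    have hcop := sw_coprime hs
    rw [Nat.mul_div_cancel_left c hd0, sh_g_mul hcop]
    have e1 : ∀ k ∈ d.divisors, sh_g (k * c) = sw_g k * sh_g c := by
      intro k hk
      rw [sh_g_mul (Nat.Coprime.coprime_dvd_left (Nat.dvd_of_mem_divisors hk) hcop),
        sh_g_of (Q1_dvd hq (Nat.dvd_of_mem_divisors hk))]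
    rw [Finset.sum_congr rfl e1, ← Finset.sum_mul]
    have e2 := sw_sum hd
    have e3 := sw_phi_g hd
    rw [sh_g_of hq]
    calc (d : ℝ) * (sw_g d * sh_g c) =
        ((Nat.totient d : ℝ) * ∑ k ∈ d.divisors, sw_g k) * (sw_g d * sh_g c) := by rw [e2]
      _ = ((Nat.totient d : ℝ) * sw_g d) * ((∑ k ∈ d.divisors, sw_g k) * sh_g c) := by ring
      _ = _ := by rw [e3, one_mul]
  rw [h1, Finset.mul_sum, Finset.sum_congr rfl h2, ← Finset.sum_product']
  have hinj : Set.InjOn (fun p : ℕ × ℕ => p.2 * (p.1 / d)) (T ×ˢ d.divisors : Finset (ℕ × ℕ)) := by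
    rintro ⟨m, k⟩ hp ⟨m', k'⟩ hp' heq
    rw [Finset.mem_coe, Finset.mem_product, hT, Finset.mem_filter] at hp hp'
    obtain ⟨⟨_, ⟨c, hc⟩, hs⟩, hk⟩ := hp
    obtain ⟨⟨_, ⟨c', hc'⟩, hs'⟩, hk'⟩ := hp'
    simp only at hc hc' hs hs' hk hk' heq
    subst hc
    subst hc'
    rw [Nat.mul_div_cancel_left c hd0, Nat.mul_div_cancel_left c' hd0] at heq
    have hkd := Nat.dvd_of_mem_divisors hk
    have hkd' := Nat.dvd_of_mem_divisors hk'
    have g1 : (k * c).gcd d = k := by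
      rw [Nat.Coprime.gcd_mul_right_cancel k (sw_coprime hs).symm]
      exact Nat.gcd_eq_left hkd
    have g2 : (k' * c').gcd d = k' := by
      rw [Nat.Coprime.gcd_mul_right_cancel k' (sw_coprime hs').symm]
      exact Nat.gcd_eq_left hkd'
    have hkk : k = k' := by rw [← g1, ← g2, heq]
    subst hkk
    have hk0 : 0 < k := Nat.pos_of_mem_divisors hk
    have hcc : c = c' := Nat.eq_of_mul_eq_mul_left hk0 heq
    subst hcc
    rfl
  have h3 : ∑ p ∈ T ×ˢ d.divisors, sh_g (p.2 * (p.1 / d)) =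
      ∑ n ∈ (T ×ˢ d.divisors).image (fun p : ℕ × ℕ => p.2 * (p.1 / d)), sh_g n := by
    rw [Finset.sum_image hinj]
  rw [h3]
  apply Finset.sum_le_sum_of_subset_of_nonneg
  · intro n hn
    obtain ⟨⟨m, k⟩, hp, rfl⟩ := Finset.mem_image.1 hn
    rw [Finset.mem_product, hT, Finset.mem_filter, Finset.mem_Icc] at hp
    obtain ⟨⟨⟨hm1, hmD⟩, ⟨c, hc⟩, hs⟩, hk⟩ := hp
    simp only at hm1 hmD hc hs hk ⊢
    subst hc
    rw [Nat.mul_div_cancel_left c hd0, Finset.mem_Icc]
    have hk0 : 0 < k := Nat.pos_of_mem_divisors hk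
    have hkd : k ≤ d := Nat.divisor_le hk
    have hc0 : 0 < c := by
      rcases Nat.eq_zero_or_pos c with h0 | h0
      · rw [h0, mul_zero] at hm1; omega
      · exact h0
    exact ⟨Nat.mul_pos hk0 hc0, (Nat.mul_le_mul_right c hkd).trans hmD⟩
  · intro n _ _
    exact sh_g_nonneg n

/-! ### the lower bound for the mass -/

/-- the prime divisors `≡ 1 mod 4` -/
def fa (n : ℕ) : Finset ℕ := n.primeFactors.filter (fun p => p % 4 = 1)

/-- the other prime divisors -/
def fb (n : ℕ) : Finset ℕ := n.primeFactors.filter (fun p => ¬ p % 4 = 1)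

/-- the primes up to `D` which are not `≡ 1 mod 4` -/
def PB (D : ℕ) : Finset ℕ := (Icc 1 D).filter (fun p => p.Prime ∧ ¬ p % 4 = 1)

lemma prod_fab {n : ℕ} (hs : Squarefree n) : (∏ p ∈ fa n, p) * ∏ p ∈ fb n, p = n := by
  unfold fa fb
  rw [Finset.prod_filter_mul_prod_filter_not]
  exact Nat.prod_primeFactors_of_squarefree hs

lemma sw_g_prime {p : ℕ} (hp : p.Prime) : sw_g p = 1 / ((p : ℝ) - 1) := by
  unfold sw_g
  rw [if_pos hp.prime.squarefree, Nat.totient_prime hp]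
  rw [Nat.cast_sub hp.one_lt.le]
  simp

lemma sw_g_prod (T : Finset ℕ) (hT : ∀ p ∈ T, p.Prime) :
    sw_g (∏ p ∈ T, p) = ∏ p ∈ T, 1 / ((p : ℝ) - 1) := by
  classical
  induction T using Finset.induction_on with
  | empty => simp [sw_g_one]
  | insert a s ha ih =>
    rw [Finset.prod_insert ha, Finset.prod_insert ha, sw_g_mul, sw_g_prime (hT a (by simp)),
      ih (fun p hp => hT p (by simp [hp]))]
    apply Nat.Coprime.prod_right
    intro p hp
    have h1 := hT a (by simp)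
    have h2 := hT p (by simp [hp])
    exact (Nat.coprime_primes h1 h2).2 (fun h => ha (h ▸ hp))

lemma primeFactors_prod_fa (n : ℕ) : (∏ p ∈ fa n, p).primeFactors = fa n :=
  Nat.primeFactors_prod (fun p hp => Nat.prime_of_mem_primeFactors (Finset.mem_filter.1 hp).1)

lemma Q1_prod_fa (n : ℕ) : Q1 (∏ p ∈ fa n, p) := by
  intro p hp hd
  have h0 : (∏ p ∈ fa n, p) ≠ 0 := by
    rw [Finset.prod_ne_zero_iff]
    intro q hq
    exact (Nat.prime_of_mem_primeFactors (Finset.mem_filter.1 hq).1).ne_zero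
  have h1 : p ∈ (∏ p ∈ fa n, p).primeFactors := Nat.mem_primeFactors.2 ⟨hp, hd, h0⟩
  rw [primeFactors_prod_fa] at h1
  exact (Finset.mem_filter.1 h1).2

theorem sw_G_le (D : ℕ) : sw_G D ≤ sh_G D * ∏ p ∈ PB D, (1 + 1 / ((p : ℝ) - 1)) := by
  classical
  rw [Finset.prod_one_add, sh_G, Finset.sum_mul_sum, ← Finset.sum_product']
  have h0 : sw_G D = ∑ n ∈ (Icc 1 D).filter Squarefree, sw_g n := by
    unfold sw_G
    symm
    apply Finset.sum_subset (Finset.filter_subset _ _)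
    intro n hn hns
    have : ¬ Squarefree n := fun h => hns (Finset.mem_filter.2 ⟨hn, h⟩)
    unfold sw_g
    rw [if_neg this]
  have hinj : Set.InjOn (fun n : ℕ => ((∏ p ∈ fa n, p), fb n)) ((Icc 1 D).filter Squarefree) := by
    intro a ha b hb hab
    rw [Finset.coe_filter, Set.mem_ofPred_eq] at ha hb
    simp only [Prod.mk.injEq] at hab
    rw [← prod_fab ha.2, ← prod_fab hb.2, hab.1, hab.2]
  have h1 : ∀ n ∈ (Icc 1 D).filter Squarefree, sw_g n =
      (fun q : ℕ × Finset ℕ => sh_g q.1 * ∏ p ∈ q.2, 1 / ((p : ℝ) - 1))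
        ((∏ p ∈ fa n, p), fb n) := by
    intro n hn
    rw [Finset.mem_filter] at hn
    simp only
    rw [sh_g_of (Q1_prod_fa n)]
    have h2 : ∀ p ∈ fb n, p.Prime := fun p hp =>
      Nat.prime_of_mem_primeFactors (Finset.mem_filter.1 hp).1
    rw [← sw_g_prod (fb n) h2, ← sw_g_mul]
    · rw [prod_fab hn.2]
    · apply sw_coprime
      rw [prod_fab hn.2]
      exact hn.2
  rw [h0, Finset.sum_congr rfl h1, ← Finset.sum_image hinj
    (f := fun q : ℕ × Finset ℕ => sh_g q.1 * ∏ p ∈ q.2, 1 / ((p : ℝ) - 1))]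
  apply Finset.sum_le_sum_of_subset_of_nonneg
  · intro q hq
    rw [Finset.mem_image] at hq
    obtain ⟨n, hn, rfl⟩ := hq
    rw [Finset.mem_filter, Finset.mem_Icc] at hn
    rw [Finset.mem_product, Finset.mem_Icc, Finset.mem_powerset]
    refine ⟨⟨?_, ?_⟩, ?_⟩
    · apply Nat.pos_of_ne_zero
      rw [Finset.prod_ne_zero_iff]
      intro q hq
      exact (Nat.prime_of_mem_primeFactors (Finset.mem_filter.1 hq).1).ne_zero
    · refine (Nat.le_of_dvd hn.1.1 ?_).trans hn.1.2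
      exact Dvd.intro _ (prod_fab hn.2)
    · intro p hp
      unfold fb at hp
      rw [Finset.mem_filter, Nat.mem_primeFactors] at hp
      unfold PB
      rw [Finset.mem_filter, Finset.mem_Icc]
      exact ⟨⟨hp.1.1.one_lt.le, (Nat.le_of_dvd hn.1.1 hp.1.2.1).trans hn.1.2⟩, hp.1.1, hp.2⟩
  · intro q hq _
    rw [Finset.mem_product, Finset.mem_powerset] at hq
    apply mul_nonneg (sh_g_nonneg _)
    apply Finset.prod_nonneg
    intro p hp
    have h2 := hq.2 hp
    unfold PB at h2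
    rw [Finset.mem_filter, Finset.mem_Icc] at h2
    have : (1 : ℝ) ≤ p := by exact_mod_cast h2.1.1
    apply div_nonneg zero_le_one
    linarith

/-! ### Mertens for the progression `1 mod 4` -/

open Pool.Agent.H452R2.Om Pool.Agent.H452R2.Om.Mert in
theorem mert1 : ∃ C : ℝ, ∀ y : ℕ, 3 ≤ y → Real.log (Real.log y) / 2 - C ≤
    ∑ p ∈ (Icc 1 y).filter (fun p => p.Prime ∧ p % 4 = 1), 1 / (p : ℝ) := by
  refine ⟨(Real.log 6 + 16) / 2, ?_⟩
  intro y hy
  have hly := log_pos3 y hy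
  have h1 := (sum_gg_le y).trans (prod_upper y)
  have h2 : Real.log y ≤ Real.log (y + 1) :=
    Real.log_le_log (by positivity) (by linarith)
  have h3 : Real.log y / 6 ≤ Real.exp (2 * ∑ p ∈ OP (fun p => p % 4 = 1) y, 1 / (p:ℝ) + 16) := by
    linarith
  have h4 := Real.log_le_log (by positivity) h3
  rw [Real.log_exp, Real.log_div hly.ne' (by norm_num)] at h4
  have h5 : (Real.log (Real.log y) - Real.log 6 - 16) / 2 ≤
      ∑ p ∈ OP (fun p => p % 4 = 1) y, 1 / (p:ℝ) := by linarith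
  have h6 : ∑ p ∈ OP (fun p => p % 4 = 1) y, 1 / (p:ℝ) ≤
      ∑ p ∈ (Icc 1 y).filter (fun p => p.Prime ∧ p % 4 = 1), 1 / (p : ℝ) := by
    apply Finset.sum_le_sum_of_subset_of_nonneg
    · intro p hp
      unfold OP at hp
      rw [mem_filter, mem_Icc] at hp ⊢
      exact ⟨⟨by omega, hp.1.2⟩, hp.2⟩
    · intro i _ _
      positivity
  linarith

theorem mert3 : ∃ C : ℝ, ∀ y : ℕ, 3 ≤ y →
    ∑ p ∈ PB y, 1 / (p : ℝ) ≤ Real.log (Real.log y) / 2 + C := by
  obtain ⟨C1, h1⟩ := mert1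
  obtain ⟨C2, h2⟩ := Pool.Agent.Helper256.KM.mertens_inv
  refine ⟨C1 + C2, fun y hy => ?_⟩
  have h3 := h1 y hy
  have h4 := (abs_le.1 (h2 y hy)).2
  have h5 : ∑ p ∈ (Finset.Icc 1 y).filter Nat.Prime, (1 : ℝ) / p =
      ∑ p ∈ (Icc 1 y).filter (fun p => p.Prime ∧ p % 4 = 1), 1 / (p : ℝ) + ∑ p ∈ PB y, 1 / (p : ℝ) := by
    unfold PB
    rw [← Finset.sum_filter_add_sum_filter_not ((Finset.Icc 1 y).filter Nat.Prime)
      (fun p => p % 4 = 1), Finset.filter_filter, Finset.filter_filter]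
  linarith

theorem sq_sum (s : Finset ℕ) (hs : ∀ p ∈ s, 2 ≤ p) : ∑ p ∈ s, 1 / ((p : ℝ) * (p - 1)) ≤ 1 := by
  have key : ∀ N : ℕ, ∑ p ∈ Finset.Ico 2 (N + 2), 1 / ((p : ℝ) * (p - 1)) = 1 - 1 / ((N : ℝ) + 1) := by
    intro N
    induction N with
    | zero => simp
    | succ N ih =>
      rw [Finset.sum_Ico_succ_top (by omega), ih]
      push_cast
      have h1 : (N : ℝ) + 1 ≠ 0 := by positivity
      have h2 : (N : ℝ) + 1 + 1 ≠ 0 := by positivity
      have h3 : (N : ℝ) + 2 ≠ 0 := by positivity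
      have h4 : (N : ℝ) + 2 - 1 ≠ 0 := by
        have : (0 : ℝ) ≤ N := Nat.cast_nonneg N
        linarith
      field_simp
      ring
  have hsub : s ⊆ Finset.Ico 2 (s.sup id + 2) := by
    intro p hp
    rw [Finset.mem_Ico]
    have : p ≤ s.sup id := Finset.le_sup (f := id) hp
    exact ⟨hs p hp, by omega⟩
  refine (Finset.sum_le_sum_of_subset_of_nonneg hsub ?_).trans ?_
  · intro p hp _
    rw [Finset.mem_Ico] at hp
    have : (2 : ℝ) ≤ p := by exact_mod_cast hp.1
    apply div_nonneg zero_le_one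
    apply mul_nonneg <;> linarith
  · rw [key]
    have : (0 : ℝ) ≤ 1 / (((s.sup id : ℕ) : ℝ) + 1) := by positivity
    linarith

theorem sh_G_ge : ∃ c : ℝ, 0 < c ∧ ∀ D : ℕ, 2 ≤ D → c * Real.sqrt (Real.log D) ≤ sh_G D := by
  obtain ⟨C, hC⟩ := mert3
  set C' : ℝ := C + 1 with hC'
  refine ⟨min (Real.exp (-C')) 1, by positivity, fun D hD => ?_⟩
  rcases Nat.lt_or_ge D 3 with h3 | h3
  · -- `D = 2`
    have hD2 : D = 2 := by omega
    subst hD2
    have h1 : (1 : ℝ) ≤ sh_G 2 := by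
      have h1 : sh_g 1 ≤ sh_G 2 :=
        Finset.single_le_sum (f := sh_g) (fun i _ => sh_g_nonneg i)
          (Finset.mem_Icc.2 ⟨le_rfl, by norm_num⟩)
      rwa [sh_g_one] at h1
    have h2 : Real.sqrt (Real.log (2 : ℕ)) ≤ 1 := by
      have h5 : Real.log (2 : ℕ) ≤ 1 := by
        have := Real.log_two_lt_d9
        push_cast
        linarith
      calc Real.sqrt (Real.log (2 : ℕ)) ≤ Real.sqrt 1 := Real.sqrt_le_sqrt h5
        _ = 1 := Real.sqrt_one
    have h4 : 0 ≤ Real.sqrt (Real.log (2 : ℕ)) := Real.sqrt_nonneg _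
    calc min (Real.exp (-C')) 1 * Real.sqrt (Real.log (2 : ℕ)) ≤ 1 * 1 :=
          mul_le_mul (min_le_right _ _) h2 h4 zero_le_one
      _ ≤ sh_G 2 := by linarith
  · have hlog : 0 < Real.log D := Real.log_pos (by exact_mod_cast (by omega : 1 < D))
    have h1 := (sw_G_ge D (by omega)).trans (sw_G_le D)
    have h2 : ∏ p ∈ PB D, (1 + 1 / ((p : ℝ) - 1)) ≤
        Real.exp (Real.log (Real.log D) / 2 + C') := by
      have h4 : ∀ p ∈ PB D, (2 : ℝ) ≤ p := by
        intro p hp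
        unfold PB at hp
        rw [Finset.mem_filter] at hp
        exact_mod_cast hp.2.1.two_le
      calc ∏ p ∈ PB D, (1 + 1 / ((p : ℝ) - 1)) ≤ ∏ p ∈ PB D, Real.exp (1 / ((p : ℝ) - 1)) := by
            apply Finset.prod_le_prod
            · intro p hp
              have := h4 p hp
              have : 0 ≤ 1 / ((p : ℝ) - 1) := div_nonneg zero_le_one (by linarith)
              linarith
            · intro p hp
              have := Real.add_one_le_exp (1 / ((p : ℝ) - 1))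
              linarith
        _ = Real.exp (∑ p ∈ PB D, 1 / ((p : ℝ) - 1)) := by rw [Real.exp_sum]
        _ ≤ _ := by
            apply Real.exp_le_exp.2
            have h5 : ∑ p ∈ PB D, 1 / ((p : ℝ) - 1) =
                ∑ p ∈ PB D, 1 / (p : ℝ) + ∑ p ∈ PB D, 1 / ((p : ℝ) * (p - 1)) := by
              rw [← Finset.sum_add_distrib]
              apply Finset.sum_congr rfl
              intro p hp
              have := h4 p hp
              have h6 : (p : ℝ) - 1 ≠ 0 := by linarith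
              have h7 : (p : ℝ) ≠ 0 := by linarith
              field_simp
              ring
            have h6 := sq_sum (PB D) (fun p hp => by exact_mod_cast h4 p hp)
            have h7 := hC D h3
            rw [h5, hC']
            linarith
    have h3' : Real.exp (Real.log (Real.log D) / 2) = Real.sqrt (Real.log D) := by
      rw [Real.sqrt_eq_rpow, Real.rpow_def_of_pos hlog]
      congr 1
      ring
    rw [Real.exp_add, h3'] at h2
    have hs : 0 < Real.sqrt (Real.log D) := Real.sqrt_pos.2 hlog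
    have h5 : Real.log D ≤ sh_G D * (Real.sqrt (Real.log D) * Real.exp C') :=
      h1.trans (mul_le_mul_of_nonneg_left h2 (sh_G_nonneg D))
    have h6 : Real.sqrt (Real.log D) * Real.sqrt (Real.log D) = Real.log D :=
      Real.mul_self_sqrt hlog.le
    have h7 : Real.sqrt (Real.log D) ≤ sh_G D * Real.exp C' := by
      have h8 : Real.sqrt (Real.log D) * Real.sqrt (Real.log D) ≤
          Real.sqrt (Real.log D) * (sh_G D * Real.exp C') := by
        rw [h6]; linarith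
      exact le_of_mul_le_mul_left h8 hs
    calc min (Real.exp (-C')) 1 * Real.sqrt (Real.log D)
        ≤ Real.exp (-C') * Real.sqrt (Real.log D) :=
          mul_le_mul_of_nonneg_right (min_le_left _ _) hs.le
      _ ≤ Real.exp (-C') * (sh_G D * Real.exp C') :=
          mul_le_mul_of_nonneg_left h7 (Real.exp_pos _).le
      _ = sh_G D * (Real.exp (-C') * Real.exp C') := by ring
      _ = sh_G D := by rw [← Real.exp_add]; simp

/-! ### the quadratic form -/

/-- the weights -/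
noncomputable def sh_l (D d : ℕ) : ℝ :=
  (d : ℝ) * (μ d : ℝ) * (sh_G D)⁻¹ * ∑ m ∈ (Icc 1 D).filter (fun m => d ∣ m), sh_g m

theorem sh_Y (D r : ℕ) (hr : r ∈ Icc 1 D) :
    ∑ d ∈ Icc 1 D, (if r ∣ d then sh_l D d / d else 0) = (μ r : ℝ) * sh_g r * (sh_G D)⁻¹ := by
  have h1 : ∀ d ∈ Icc 1 D, (if r ∣ d then sh_l D d / d else 0) =
      ∑ m ∈ Icc 1 D, (sh_G D)⁻¹ * (sh_g m * (if r ∣ d ∧ d ∣ m then (μ d : ℝ) else 0)) := by
    intro d hd
    rw [Finset.mem_Icc] at hd
    have hd0 : (d : ℝ) ≠ 0 := by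
      have : 0 < d := hd.1
      exact_mod_cast this.ne'
    by_cases hrd : r ∣ d
    · rw [if_pos hrd]
      unfold sh_l
      rw [Finset.sum_filter, mul_assoc, mul_assoc, mul_div_assoc,
        mul_comm ((μ d : ℝ)) _, mul_assoc, Finset.sum_mul, Finset.mul_sum, Finset.sum_div,
        Finset.mul_sum]
      refine Finset.sum_congr rfl fun m _ => ?_
      by_cases hdm : d ∣ m
      · rw [if_pos hdm, if_pos ⟨hrd, hdm⟩]
        field_simp
      · rw [if_neg hdm, if_neg (fun h => hdm h.2)]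
        simp
    · rw [if_neg hrd]
      symm
      apply Finset.sum_eq_zero
      intro m _
      rw [if_neg (fun h => hrd h.1)]
      simp
  rw [Finset.sum_congr rfl h1, Finset.sum_comm]
  have h2 : ∀ m ∈ Icc 1 D, ∑ d ∈ Icc 1 D,
      (sh_G D)⁻¹ * (sh_g m * (if r ∣ d ∧ d ∣ m then (μ d : ℝ) else 0)) =
      if m = r then (sh_G D)⁻¹ * (sh_g r * (μ r : ℝ)) else 0 := by
    intro m hm
    rw [← Finset.mul_sum, ← Finset.mul_sum]
    by_cases hs : Squarefree m
    · rw [sw_moebius_sum D r m hr hm hs]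
      by_cases hmr : m = r
      · rw [if_pos hmr, if_pos hmr, hmr]
      · rw [if_neg hmr, if_neg hmr]
        simp
    · have hg : sh_g m = 0 := by
        unfold sh_g sw_g
        rw [if_neg hs]
        simp
      rw [hg, zero_mul, mul_zero]
      by_cases hmr : m = r
      · rw [if_pos hmr, ← hmr, hg]; simp
      · rw [if_neg hmr]
  rw [Finset.sum_congr rfl h2, Finset.sum_ite_eq' (Icc 1 D) r, if_pos hr]
  ring

theorem sh_form (D : ℕ) (hD : 1 ≤ D) :
    ∑ d ∈ Icc 1 D, ∑ e ∈ Icc 1 D, sh_l D d * sh_l D e / (Nat.lcm d e : ℝ) = (sh_G D)⁻¹ := by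
  have hG := sh_G_pos hD
  have h1 : ∀ d ∈ Icc 1 D, ∀ e ∈ Icc 1 D, sh_l D d * sh_l D e / (Nat.lcm d e : ℝ) =
      ∑ r ∈ Icc 1 D, (Nat.totient r : ℝ) * ((if r ∣ d then sh_l D d / d else 0) *
        (if r ∣ e then sh_l D e / e else 0)) := by
    intro d hd e he
    rw [div_eq_mul_one_div, sw_lcm D d e hd he, Finset.mul_sum]
    refine Finset.sum_congr rfl fun r _ => ?_
    split_ifs <;> ring
  have h2 : ∑ d ∈ Icc 1 D, ∑ e ∈ Icc 1 D, sh_l D d * sh_l D e / (Nat.lcm d e : ℝ) =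
      ∑ r ∈ Icc 1 D, (Nat.totient r : ℝ) *
        (∑ d ∈ Icc 1 D, (if r ∣ d then sh_l D d / d else 0)) ^ 2 := by
    calc ∑ d ∈ Icc 1 D, ∑ e ∈ Icc 1 D, sh_l D d * sh_l D e / (Nat.lcm d e : ℝ)
        = ∑ d ∈ Icc 1 D, ∑ e ∈ Icc 1 D, ∑ r ∈ Icc 1 D, (Nat.totient r : ℝ) *
          ((if r ∣ d then sh_l D d / d else 0) * (if r ∣ e then sh_l D e / e else 0)) :=
          Finset.sum_congr rfl fun d hd => Finset.sum_congr rfl fun e he => h1 d hd e he
      _ = ∑ r ∈ Icc 1 D, ∑ d ∈ Icc 1 D, ∑ e ∈ Icc 1 D, (Nat.totient r : ℝ) *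
          ((if r ∣ d then sh_l D d / d else 0) * (if r ∣ e then sh_l D e / e else 0)) := by
          rw [Finset.sum_comm]
          rw [Finset.sum_congr rfl fun e _ => Finset.sum_comm]
          rw [Finset.sum_comm]
          exact Finset.sum_congr rfl fun r _ => Finset.sum_comm
      _ = _ := by
          refine Finset.sum_congr rfl fun r _ => ?_
          rw [sq, Finset.sum_mul_sum, Finset.mul_sum]
          refine Finset.sum_congr rfl fun d _ => ?_
          rw [Finset.mul_sum]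
  rw [h2]
  have h3 : ∀ r ∈ Icc 1 D, (Nat.totient r : ℝ) *
        (∑ d ∈ Icc 1 D, (if r ∣ d then sh_l D d / d else 0)) ^ 2 =
        sh_g r * ((sh_G D)⁻¹) ^ 2 := by
    intro r hr
    rw [sh_Y D r hr]
    by_cases hq : Q1 r
    swap
    · rw [sh_g_not hq]; ring
    by_cases hs : Squarefree r
    · have e1 := sw_phi_g hs
      have e2 : ((μ r : ℤ) : ℝ) ^ 2 = 1 := by
        have := ArithmeticFunction.moebius_sq_eq_one_of_squarefree hs
        exact_mod_cast this
      rw [sh_g_of hq]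
      calc (Nat.totient r : ℝ) * ((μ r : ℝ) * sw_g r * (sh_G D)⁻¹) ^ 2 =
          ((μ r : ℝ) ^ 2) * ((Nat.totient r : ℝ) * sw_g r) * (sw_g r * ((sh_G D)⁻¹) ^ 2) := by ring
        _ = _ := by rw [e1, e2, one_mul, one_mul]
    · have hg : sh_g r = 0 := by
        unfold sh_g sw_g
        rw [if_neg hs]
        simp
      rw [hg]
      ring
  rw [Finset.sum_congr rfl h3, ← Finset.sum_mul]
  show sh_G D * ((sh_G D)⁻¹) ^ 2 = (sh_G D)⁻¹
  field_simp

/-- task GM-O -/
theorem selh : Pool.Agent.W78.GM.S_SELH := by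
  obtain ⟨c, hc, hG'⟩ := sh_G_ge
  refine ⟨1 / c, by positivity, fun D hD => ?_⟩
  have hD1 : 1 ≤ D := by omega
  have hG := sh_G_pos hD1
  refine ⟨sh_l D, ?_, ?_, ?_, ?_, ?_⟩
  · unfold sh_l
    have : (Icc 1 D).filter (fun m => 1 ∣ m) = Icc 1 D :=
      Finset.filter_true_of_mem (fun m _ => one_dvd m)
    rw [this]
    show ((1 : ℕ) : ℝ) * ((μ 1 : ℤ) : ℝ) * (sh_G D)⁻¹ * sh_G D = 1
    rw [ArithmeticFunction.moebius_apply_one]
    push_cast
    field_simp
  · intro d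
    by_cases hs : Squarefree d
    · have h1 := sh_key D d hs
      have hnn : 0 ≤ ∑ m ∈ (Icc 1 D).filter (fun m => d ∣ m), sh_g m :=
        Finset.sum_nonneg fun m _ => sh_g_nonneg m
      have h2 : |((μ d : ℤ) : ℝ)| = 1 := by
        have := ArithmeticFunction.moebius_sq_eq_one_of_squarefree hs
        have h3 : ((μ d : ℤ) : ℝ) ^ 2 = 1 := by exact_mod_cast this
        rw [← sq_abs] at h3
        nlinarith [abs_nonneg ((μ d : ℤ) : ℝ)]
      unfold sh_l
      rw [abs_mul, abs_mul, abs_mul, h2, abs_of_nonneg (Nat.cast_nonneg d), mul_one,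
        abs_of_pos (inv_pos.2 hG), abs_of_nonneg hnn]
      calc (d : ℝ) * (sh_G D)⁻¹ * ∑ m ∈ (Icc 1 D).filter (fun m => d ∣ m), sh_g m =
          (sh_G D)⁻¹ * ((d : ℝ) * ∑ m ∈ (Icc 1 D).filter (fun m => d ∣ m), sh_g m) := by ring
        _ ≤ (sh_G D)⁻¹ * sh_G D := mul_le_mul_of_nonneg_left h1 (inv_pos.2 hG).le
        _ = 1 := inv_mul_cancel₀ hG.ne'
    · unfold sh_l
      rw [ArithmeticFunction.moebius_eq_zero_of_not_squarefree hs]
      simp
  · intro d hd
    unfold sh_l at hd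
    have h1 : (d : ℝ) ≠ 0 := by
      intro h; rw [h] at hd; simp at hd
    have h2 : ((μ d : ℤ) : ℝ) ≠ 0 := by
      intro h; rw [h] at hd; simp at hd
    have h3 : ∑ m ∈ (Icc 1 D).filter (fun m => d ∣ m), sh_g m ≠ 0 := by
      intro h; rw [h] at hd; simp at hd
    have h4 : Squarefree d := by
      by_contra hs
      rw [ArithmeticFunction.moebius_eq_zero_of_not_squarefree hs] at h2
      simp at h2
    obtain ⟨m, hm, hgm⟩ := Finset.exists_ne_zero_of_sum_ne_zero h3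
    rw [Finset.mem_filter, Finset.mem_Icc] at hm
    refine ⟨Nat.pos_of_ne_zero h4.ne_zero, (Nat.le_of_dvd hm.1.1 hm.2).trans hm.1.2, h4, ?_⟩
    have hq : Q1 m := by
      by_contra hq
      exact hgm (sh_g_not hq)
    exact Q1_dvd hq hm.2
  · rw [sh_form D hD1]
    exact (inv_pos.2 hG).le
  · rw [sh_form D hD1]
    have hlog : 0 < Real.log D := Real.log_pos (by exact_mod_cast (by omega : 1 < D))
    have hs : 0 < Real.sqrt (Real.log D) := Real.sqrt_pos.2 hlog
    rw [div_div, one_div]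
    exact inv_anti₀ (by positivity) (hG' D hD)

end Pool.Agent.W64.GM
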