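import Pool.Agent.W64.GM.Area

/-!
Project GM (helper78), task GM-I (helper64): angular sums for small frequencies.
-/

set_option autoImplicit false

namespace Pool.Agent.W64.GM

open Finset MeasureTheory
open Pool.Agent.W78.GM
open GaussianInt (toComplex)

/-- the unit vector -/
noncomputable def uv (w : ℂ) : ℂ := w / ((‖w‖ : ℝ) : ℂ)

lemma measurable_uv : Measurable uv := by
  unfold uv
  fun_prop

lemma norm_uv_le (w : ℂ) : ‖uv w‖ ≤ 1 := by
  unfold uv
  by_cases h : w = 0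
  · simp [h]
  · rw [norm_div, Complex.norm_real, norm_norm, div_self (norm_ne_zero_iff.2 h)]

lemma norm_uv {w : ℂ} (h : w ≠ 0) : ‖uv w‖ = 1 := by
  unfold uv
  rw [norm_div, Complex.norm_real, norm_norm, div_self (norm_ne_zero_iff.2 h)]

lemma uv_mul (a b : ℂ) : uv (a * b) = uv a * uv b := by
  unfold uv
  rw [norm_mul]
  push_cast
  rw [mul_div_mul_comm]

lemma pow_lip (a b : ℂ) (ha : ‖a‖ ≤ 1) (hb : ‖b‖ ≤ 1) (n : ℕ) : ‖a ^ n - b ^ n‖ ≤ n * ‖a - b‖ := by
  induction n with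
  | zero => simp
  | succ n ih =>
    have h1 : a ^ (n + 1) - b ^ (n + 1) = a ^ n * (a - b) + (a ^ n - b ^ n) * b := by ring
    rw [h1]
    refine (norm_add_le _ _).trans ?_
    rw [norm_mul, norm_mul, norm_pow]
    have h2 : ‖a‖ ^ n ≤ 1 := pow_le_one₀ (norm_nonneg _) ha
    have h3 : ‖a‖ ^ n * ‖a - b‖ ≤ 1 * ‖a - b‖ := mul_le_mul_of_nonneg_right h2 (norm_nonneg _)
    have h4 : ‖a ^ n - b ^ n‖ * ‖b‖ ≤ ‖a ^ n - b ^ n‖ * 1 :=
      mul_le_mul_of_nonneg_left hb (norm_nonneg _)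
    push_cast
    linarith

lemma zpow_lip (a b : ℂ) (ha : ‖a‖ = 1) (hb : ‖b‖ = 1) (k : ℤ) :
    ‖a ^ k - b ^ k‖ ≤ |(k : ℝ)| * ‖a - b‖ := by
  rcases Int.eq_nat_or_neg k with ⟨n, h | h⟩
  · subst h
    rw [zpow_natCast, zpow_natCast]
    simpa using pow_lip a b ha.le hb.le n
  · subst h
    rw [zpow_neg, zpow_neg, zpow_natCast, zpow_natCast]
    have ha0 : a ≠ 0 := by rintro rfl; simp at ha
    have hb0 : b ≠ 0 := by rintro rfl; simp at hb
    have h1 : (a ^ n)⁻¹ - (b ^ n)⁻¹ = (b ^ n - a ^ n) / (a ^ n * b ^ n) := by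
      field_simp
    rw [h1, norm_div, norm_mul, norm_pow, norm_pow, ha, hb, norm_sub_rev]
    simpa using pow_lip a b ha.le hb.le n

lemma uv_lip {z : ℂ} (hz : z ≠ 0) (w : ℂ) (hw : w ≠ 0) : ‖uv w - uv z‖ ≤ 2 * ‖w - z‖ / ‖z‖ := by
  have hz' : 0 < ‖z‖ := norm_pos_iff.2 hz
  have hw' : 0 < ‖w‖ := norm_pos_iff.2 hw
  have h1 : uv w - uv z = uv w * (((‖z‖ - ‖w‖ : ℝ) : ℂ) / ((‖z‖ : ℝ) : ℂ)) + (w - z) / ((‖z‖ : ℝ) : ℂ) := by
    unfold uv
    have e1 : ((‖z‖ : ℝ) : ℂ) ≠ 0 := by exact_mod_cast hz'.ne'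
    have e2 : ((‖w‖ : ℝ) : ℂ) ≠ 0 := by exact_mod_cast hw'.ne'
    push_cast
    field_simp
    ring
  rw [h1]
  refine (norm_add_le _ _).trans ?_
  rw [norm_mul, norm_div, norm_div, Complex.norm_real, Complex.norm_real, norm_norm, Real.norm_eq_abs]
  have h2 : |‖z‖ - ‖w‖| ≤ ‖w - z‖ := by
    rw [norm_sub_rev w z]
    exact abs_norm_sub_norm_le z w
  have h3 : ‖uv w‖ * (|‖z‖ - ‖w‖| / ‖z‖) ≤ 1 * (‖w - z‖ / ‖z‖) := by
    apply mul_le_mul (norm_uv_le w) (div_le_div_of_nonneg_right h2 hz'.le) (by positivity) zero_le_one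
  calc _ ≤ 1 * (‖w - z‖ / ‖z‖) + ‖w - z‖ / ‖z‖ := by linarith
    _ = _ := by ring

/-- the integral over the disc vanishes -/
theorem int_disc (k : ℤ) (hk : k ≠ 0) (R : ℝ) :
    ∫ w in Metric.closedBall (0 : ℂ) R, (uv w) ^ k = 0 := by
  have hD : MeasurableSet (Metric.closedBall (0 : ℂ) R) := Metric.isClosed_closedBall.measurableSet
  set I : ℂ := ∫ w in Metric.closedBall (0 : ℂ) R, (uv w) ^ k with hI
  -- the rotation
  set c : Circle := Circle.exp (Real.pi / k) with hc
  have hck : ((c : ℂ)) ^ k = -1 := by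
    rw [hc, Circle.coe_exp, ← Complex.exp_int_mul]
    have : (k : ℂ) * (((Real.pi / k : ℝ) : ℂ) * Complex.I) = Real.pi * Complex.I := by
      push_cast
      have : (k : ℂ) ≠ 0 := by exact_mod_cast hk
      field_simp
    rw [this, Complex.exp_pi_mul_I]
  have hmp : MeasurePreserving (rotation c) (volume : Measure ℂ) volume :=
    (rotation c).measurePreserving
  have h1 := hmp.integral_comp (rotation c).toHomeomorph.measurableEmbedding
    (fun w => (Metric.closedBall (0 : ℂ) R).indicator (fun w => (uv w) ^ k) w)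
  have h2 : ∀ w : ℂ, (Metric.closedBall (0 : ℂ) R).indicator (fun w => (uv w) ^ k) (rotation c w) =
      -((Metric.closedBall (0 : ℂ) R).indicator (fun w => (uv w) ^ k) w) := by
    intro w
    rw [rotation_apply]
    have hn : ‖(c : ℂ) * w‖ = ‖w‖ := by rw [norm_mul, Circle.norm_coe, one_mul]
    by_cases hw : w ∈ Metric.closedBall (0 : ℂ) R
    · have hw2 : (c : ℂ) * w ∈ Metric.closedBall (0 : ℂ) R := by
        rw [Metric.mem_closedBall, dist_zero_right] at hw ⊢
        rwa [hn]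
      rw [Set.indicator_of_mem hw, Set.indicator_of_mem hw2]
      rw [uv_mul, mul_zpow]
      have : uv (c : ℂ) = (c : ℂ) := by
        unfold uv
        rw [Circle.norm_coe]; simp
      rw [this, hck]
      ring
    · have hw2 : (c : ℂ) * w ∉ Metric.closedBall (0 : ℂ) R := by
        rw [Metric.mem_closedBall, dist_zero_right] at hw ⊢
        rwa [hn]
      rw [Set.indicator_of_notMem hw, Set.indicator_of_notMem hw2, neg_zero]
  have h3 : (∫ w, (Metric.closedBall (0 : ℂ) R).indicator (fun w => (uv w) ^ k) (rotation c w)) = -I := by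
    rw [hI, ← integral_indicator hD, ← integral_neg]
    exact integral_congr_ae (Filter.Eventually.of_forall h2)
  have h4 : (∫ w, (Metric.closedBall (0 : ℂ) R).indicator (fun w => (uv w) ^ k) w) = I := by
    rw [hI, integral_indicator hD]
  rw [h4] at h1
  have h5 : -I = I := by rw [← h3]; exact h1
  have h6 : (2 : ℂ) * I = 0 := by
    linear_combination -h5
  simpa using h6

/-- one half of the sum of the reciprocals of the absolute values -/
lemma sum_half (s : Finset GaussianInt) (N : ℕ) (u v : GaussianInt → ℤ)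
    (hinj : ∀ z ∈ s, ∀ z' ∈ s, u z = u z' → v z = v z' → z = z')
    (hvu : ∀ z ∈ s, |v z| ≤ |u z|) (hu0 : ∀ z ∈ s, u z ≠ 0) (huN : ∀ z ∈ s, |u z| ≤ N) :
    ∑ z ∈ s, 1 / ((|u z| : ℤ) : ℝ) ≤ 6 * N := by
  have hmaps : ∀ z ∈ s, u z ∈ (Icc (-(N : ℤ)) N).erase 0 := by
    intro z hz
    rw [Finset.mem_erase, Finset.mem_Icc]
    exact ⟨hu0 z hz, abs_le.1 (huN z hz)⟩
  rw [← Finset.sum_fiberwise_of_maps_to hmaps]
  have h1 : ∀ x ∈ (Icc (-(N : ℤ)) N).erase 0,
      ∑ z ∈ s.filter (fun z => u z = x), 1 / ((|u z| : ℤ) : ℝ) ≤ 3 := by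
    intro x hx
    rw [Finset.mem_erase] at hx
    have h2 : ∀ z ∈ s.filter (fun z => u z = x), 1 / ((|u z| : ℤ) : ℝ) = 1 / ((|x| : ℤ) : ℝ) := by
      intro z hz
      rw [(Finset.mem_filter.1 hz).2]
    rw [Finset.sum_congr rfl h2, Finset.sum_const, nsmul_eq_mul]
    have h3 : (s.filter (fun z => u z = x)).card ≤ (Icc (-|x|) |x|).card := by
      apply Finset.card_le_card_of_injOn v
      · intro z hz
        rw [Finset.mem_coe, Finset.mem_filter] at hz
        rw [Finset.mem_coe, Finset.mem_Icc, ← abs_le, ← hz.2]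
        exact hvu z hz.1
      · intro z hz z' hz' h
        rw [Finset.mem_coe, Finset.mem_filter] at hz hz'
        exact hinj z hz.1 z' hz'.1 (hz.2.trans hz'.2.symm) h
    rw [Int.card_Icc] at h3
    have hx1 : 1 ≤ |x| := Int.one_le_abs hx.1
    have h4 : ((s.filter (fun z => u z = x)).card : ℝ) ≤ 3 * ((|x| : ℤ) : ℝ) := by
      have h5 : ((s.filter (fun z => u z = x)).card : ℤ) ≤ 3 * |x| := by
        have : ((|x| + 1 - -|x|).toNat : ℤ) = |x| + 1 - -|x| := Int.toNat_of_nonneg (by omega)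
        have h6 : ((s.filter (fun z => u z = x)).card : ℤ) ≤ ((|x| + 1 - -|x|).toNat : ℤ) := by
          exact_mod_cast h3
        omega
      exact_mod_cast h5
    have hx2 : (0 : ℝ) < ((|x| : ℤ) : ℝ) := by exact_mod_cast (by omega : 0 < |x|)
    rw [mul_one_div, div_le_iff₀ hx2]
    exact h4
  refine (Finset.sum_le_sum h1).trans ?_
  rw [Finset.sum_const, nsmul_eq_mul]
  have h5 : ((Icc (-(N : ℤ)) N).erase 0).card = 2 * N := by
    rw [Finset.card_erase_of_mem (by rw [Finset.mem_Icc]; omega), Int.card_Icc]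
    omega
  rw [h5]
  push_cast
  linarith

theorem sum_inv (X : ℝ) (hX : 1 ≤ X) : ∑ z ∈ ball X, 1 / Real.sqrt (nm z) ≤ 12 * Real.sqrt X := by
  set N : ℕ := ⌊Real.sqrt X⌋₊ with hN
  have hNX : (N : ℝ) ≤ Real.sqrt X := Nat.floor_le (Real.sqrt_nonneg _)
  have hre : ∀ z ∈ ball X, |z.re| ≤ N := by
    intro z hz
    rw [mem_ball] at hz
    have h1 : ((|z.re| : ℤ) : ℝ) ≤ Real.sqrt X := by
      push_cast
      apply Real.abs_le_sqrt
      rw [nm_castR] at hz
      nlinarith [sq_nonneg (z.im : ℝ)]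
    have h2 : ((z.re.natAbs : ℕ) : ℝ) ≤ Real.sqrt X := by
      rw [Nat.cast_natAbs]; exact h1
    have h3 := Nat.le_floor h2
    rw [Int.abs_eq_natAbs]
    exact_mod_cast h3
  have him : ∀ z ∈ ball X, |z.im| ≤ N := by
    intro z hz
    rw [mem_ball] at hz
    have h1 : ((|z.im| : ℤ) : ℝ) ≤ Real.sqrt X := by
      push_cast
      apply Real.abs_le_sqrt
      rw [nm_castR] at hz
      nlinarith [sq_nonneg (z.re : ℝ)]
    have h2 : ((z.im.natAbs : ℕ) : ℝ) ≤ Real.sqrt X := by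
      rw [Nat.cast_natAbs]; exact h1
    have h3 := Nat.le_floor h2
    rw [Int.abs_eq_natAbs]
    exact_mod_cast h3
  rw [← Finset.sum_filter_add_sum_filter_not (ball X) (fun z => |z.im| ≤ |z.re|)]
  have hz0 : ∀ z ∈ ball X, z.re ≠ 0 ∨ z.im ≠ 0 := by
    intro z hz
    rw [mem_ball] at hz
    by_contra h
    push Not at h
    have : z = 0 := Zsqrtd.ext h.1 h.2
    exact (one_le_nm.1 hz.1) this
  have hA : ∑ z ∈ (ball X).filter (fun z => |z.im| ≤ |z.re|), 1 / Real.sqrt (nm z) ≤ 6 * N := by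
    have h0 : ∀ z ∈ (ball X).filter (fun z => |z.im| ≤ |z.re|), z.re ≠ 0 := by
      intro z hz h
      rw [Finset.mem_filter] at hz
      rcases hz0 z hz.1 with h1 | h1
      · exact h1 h
      · have := hz.2
        rw [h, abs_zero] at this
        exact h1 (abs_eq_zero.1 (le_antisymm this (abs_nonneg _)))
    refine le_trans (Finset.sum_le_sum (g := fun z : GaussianInt => 1 / ((|z.re| : ℤ) : ℝ)) ?_) ?_
    · intro z hz
      have h1 := h0 z hz
      have h2 : (0 : ℝ) < ((|z.re| : ℤ) : ℝ) := by exact_mod_cast abs_pos.2 h1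
      apply one_div_le_one_div_of_le h2
      push_cast
      apply Real.le_sqrt_of_sq_le
      rw [sq_abs, nm_castR]
      nlinarith [sq_nonneg (z.im : ℝ)]
    · exact sum_half _ N (fun z => z.re) (fun z => z.im)
        (fun z _ z' _ h1 h2 => Zsqrtd.ext h1 h2)
        (fun z hz => (Finset.mem_filter.1 hz).2) h0
        (fun z hz => hre z (Finset.mem_filter.1 hz).1)
  have hB : ∑ z ∈ (ball X).filter (fun z => ¬ |z.im| ≤ |z.re|), 1 / Real.sqrt (nm z) ≤ 6 * N := by
    have h0 : ∀ z ∈ (ball X).filter (fun z => ¬ |z.im| ≤ |z.re|), z.im ≠ 0 := by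
      intro z hz h
      rw [Finset.mem_filter] at hz
      apply hz.2
      rw [h, abs_zero]
      exact abs_nonneg _
    refine le_trans (Finset.sum_le_sum (g := fun z : GaussianInt => 1 / ((|z.im| : ℤ) : ℝ)) ?_) ?_
    · intro z hz
      have h1 := h0 z hz
      have h2 : (0 : ℝ) < ((|z.im| : ℤ) : ℝ) := by exact_mod_cast abs_pos.2 h1
      apply one_div_le_one_div_of_le h2
      push_cast
      apply Real.le_sqrt_of_sq_le
      rw [sq_abs, nm_castR]
      nlinarith [sq_nonneg (z.re : ℝ)]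
    · exact sum_half _ N (fun z => z.im) (fun z => z.re)
        (fun z _ z' _ h1 h2 => Zsqrtd.ext h2 h1)
        (fun z hz => (not_le.1 (Finset.mem_filter.1 hz).2).le) h0
        (fun z hz => him z (Finset.mem_filter.1 hz).1)
  linarith

/-- task GM-I, first part -/
theorem ang2 : S_ANG2 := by
  refine ⟨48 + 20 * Real.pi, by positivity, fun X k hX hk => ?_⟩
  have hk1 : (1 : ℝ) ≤ |(k : ℝ)| := by
    have : 1 ≤ |k| := Int.one_le_abs hk
    exact_mod_cast this
  have h := comp (fun w => (uv w) ^ k) (by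
      have := measurable_uv
      exact (measurable_uv.pow_const k)) (by
      intro w
      by_cases hw : w = 0
      · subst hw
        have : uv 0 = 0 := by simp [uv]
        rw [this, zero_zpow k hk]
        simp
      · rw [norm_zpow, norm_uv hw, one_zpow]) (4 * |(k : ℝ)|) (by positivity) (by
      intro w hw
      have hz : toComplex (fl w) ≠ 0 := toComplex_ne_zero hw
      have hw0 : w ≠ 0 := by
        rintro rfl
        apply hw
        apply Zsqrtd.ext
        · simp [fl]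
        · simp [fl]
      refine (zpow_lip _ _ (norm_uv hw0) (norm_uv hz) k).trans ?_
      have h1 := uv_lip hz w hw0
      have h2 := norm_sub_fl w
      have h3 : 0 < ‖toComplex (fl w)‖ := norm_pos_iff.2 hz
      rw [← norm_toComplex]
      calc |(k : ℝ)| * ‖uv w - uv (toComplex (fl w))‖
          ≤ |(k : ℝ)| * (2 * ‖w - toComplex (fl w)‖ / ‖toComplex (fl w)‖) :=
            mul_le_mul_of_nonneg_left h1 (abs_nonneg _)
        _ ≤ |(k : ℝ)| * (2 * 2 / ‖toComplex (fl w)‖) := by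
            apply mul_le_mul_of_nonneg_left _ (abs_nonneg _)
            apply div_le_div_of_nonneg_right _ h3.le
            linarith
        _ = _ := by ring) X hX
  rw [int_disc k hk, sub_zero] at h
  refine h.trans ?_
  have h1 := sum_inv X hX
  have h2 : 4 * |(k : ℝ)| * ∑ z ∈ ball X, 1 / Real.sqrt (nm z) ≤ 4 * |(k : ℝ)| * (12 * Real.sqrt X) :=
    mul_le_mul_of_nonneg_left h1 (by positivity)
  have h3 : 20 * Real.pi * Real.sqrt X ≤ 20 * Real.pi * (|(k : ℝ)| * Real.sqrt X) := by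
    apply mul_le_mul_of_nonneg_left _ (by positivity)
    nlinarith [Real.sqrt_nonneg X]
  calc _ ≤ 4 * |(k : ℝ)| * (12 * Real.sqrt X) + 20 * Real.pi * (|(k : ℝ)| * Real.sqrt X) := by linarith
    _ = _ := by ring

/-- task GM-I, second part -/
theorem ang_of : S_ANG1 → S_ANG2 → S_ANG := by
  intro h1 h2 M
  obtain ⟨η, hη, C1, hC1, h1⟩ := h1 M
  obtain ⟨C2, hC2, h2⟩ := h2
  refine ⟨min η (1 / 4), by positivity, 2 * C1 + C2, by positivity, fun X k hX hk hkX => ?_⟩
  have hX0 : 0 < X := by linarith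
  set e : ℝ := min η (1 / 4) with he
  have hk1 : (1 : ℝ) ≤ |(k : ℝ)| := by
    have : 1 ≤ |k| := Int.one_le_abs hk
    exact_mod_cast this
  have hpos : 0 < X ^ (1 - e) := Real.rpow_pos_of_pos hX0 _
  rcases le_or_gt (X ^ (1 / 4 : ℝ)) |(k : ℝ)| with h | h
  · have h3 := h1 X k hX hk hkX
    have h4 : X ^ (1 - η) ≤ X ^ (1 - e) := by
      apply Real.rpow_le_rpow_of_exponent_le hX
      have := min_le_left η (1 / 4)
      linarith
    have h5 : X / |(k : ℝ)| ≤ X ^ (1 - e) := by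
      calc X / |(k : ℝ)| ≤ X / X ^ (1 / 4 : ℝ) :=
            div_le_div_of_nonneg_left hX0.le (Real.rpow_pos_of_pos hX0 _) h
        _ = X ^ (1 - 1 / 4 : ℝ) := by
            rw [Real.rpow_sub hX0, Real.rpow_one]
        _ ≤ X ^ (1 - e) := by
            apply Real.rpow_le_rpow_of_exponent_le hX
            have := min_le_right η (1 / 4)
            linarith
    calc _ ≤ C1 * (X ^ (1 - η) + X / |(k : ℝ)|) := h3
      _ ≤ C1 * (X ^ (1 - e) + X ^ (1 - e)) := by
          apply mul_le_mul_of_nonneg_left _ hC1.le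
          linarith
      _ ≤ (2 * C1 + C2) * X ^ (1 - e) := by nlinarith
  · have h3 := h2 X k hX hk
    have h5 : |(k : ℝ)| * Real.sqrt X ≤ X ^ (1 - e) := by
      calc |(k : ℝ)| * Real.sqrt X ≤ X ^ (1 / 4 : ℝ) * X ^ (1 / 2 : ℝ) := by
            rw [Real.sqrt_eq_rpow]
            exact mul_le_mul_of_nonneg_right h.le (Real.rpow_nonneg hX0.le _)
        _ = X ^ (1 - 1 / 4 : ℝ) := by
            rw [← Real.rpow_add hX0]; norm_num
        _ ≤ X ^ (1 - e) := by
            apply Real.rpow_le_rpow_of_exponent_le hX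
            have := min_le_right η (1 / 4)
            linarith
    calc _ ≤ C2 * |(k : ℝ)| * Real.sqrt X := h3
      _ = C2 * (|(k : ℝ)| * Real.sqrt X) := by ring
      _ ≤ C2 * X ^ (1 - e) := mul_le_mul_of_nonneg_left h5 hC2.le
      _ ≤ (2 * C1 + C2) * X ^ (1 - e) := by nlinarith

end Pool.Agent.W64.GM
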