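import Pool.Agent.W78.GM.Basic

/-!
Project GM (helper78), tasks GM-F and GM-I (helper64): comparison of a sum over Gaussian integers
in a disc with the integral over the disc.
-/

set_option autoImplicit false

namespace Pool.Agent.W64.GM

open Finset MeasureTheory
open Pool.Agent.W78.GM
open GaussianInt (toComplex)

/-- the lower left lattice point -/
noncomputable def fl (w : ℂ) : GaussianInt := ⟨⌊w.re⌋, ⌊w.im⌋⟩

/-- the unit square at `z` -/
def sq (z : GaussianInt) : Set ℂ := {w | fl w = z}

lemma mem_sq {z : GaussianInt} {w : ℂ} : w ∈ sq z ↔ fl w = z := Iff.rfl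

lemma sq_eq (z : GaussianInt) : sq z = Complex.measurableEquivRealProd ⁻¹'
    (Set.Ico (z.re : ℝ) (z.re + 1) ×ˢ Set.Ico (z.im : ℝ) (z.im + 1)) := by
  ext w
  rw [mem_sq, Set.mem_preimage, Complex.measurableEquivRealProd_apply, Set.mem_prod, Set.mem_Ico,
    Set.mem_Ico, ← Int.floor_eq_iff, ← Int.floor_eq_iff]
  unfold fl
  constructor
  · rintro rfl
    exact ⟨rfl, rfl⟩
  · rintro ⟨h1, h2⟩
    exact Zsqrtd.ext h1 h2

lemma measurableSet_sq (z : GaussianInt) : MeasurableSet (sq z) := by
  rw [sq_eq]
  exact Complex.measurableEquivRealProd.measurable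
    (measurableSet_Ico.prod measurableSet_Ico)

lemma volume_sq (z : GaussianInt) : volume (sq z) = 1 := by
  rw [sq_eq, Complex.volume_preserving_equiv_real_prod.measure_preimage
    (measurableSet_Ico.prod measurableSet_Ico).nullMeasurableSet, Measure.volume_eq_prod,
    Measure.prod_prod, Real.volume_Ico, Real.volume_Ico]
  simp

lemma real_volume_sq (z : GaussianInt) : volume.real (sq z) = 1 := by
  rw [Measure.real, volume_sq]; simp

lemma norm_sub_fl (w : ℂ) : ‖w - toComplex (fl w)‖ ≤ 2 := by
  have h1 : |(w - toComplex (fl w)).re| ≤ 1 := by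
    rw [Complex.sub_re, toC_re]
    unfold fl
    simp only
    rw [abs_le]
    constructor
    · linarith [Int.floor_le w.re]
    · linarith [Int.lt_floor_add_one w.re]
  have h2 : |(w - toComplex (fl w)).im| ≤ 1 := by
    rw [Complex.sub_im, toC_im]
    unfold fl
    simp only
    rw [abs_le]
    constructor
    · linarith [Int.floor_le w.im]
    · linarith [Int.lt_floor_add_one w.im]
  exact (Complex.norm_le_abs_re_add_abs_im _).trans (by linarith)

/-- a finite sum as an integral -/
lemma integral_fl (s : Finset GaussianInt) (f : GaussianInt → ℂ) :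
    Integrable (fun w : ℂ => ∑ z ∈ s, (sq z).indicator (fun _ => f z) w) ∧
    ∫ w : ℂ, ∑ z ∈ s, (sq z).indicator (fun _ => f z) w = ∑ z ∈ s, f z := by
  have hI : ∀ z ∈ s, Integrable ((sq z).indicator (fun _ => f z)) := by
    intro z _
    rw [integrable_indicator_iff (measurableSet_sq z)]
    exact integrableOn_const (by rw [volume_sq]; simp) (by simp)
  refine ⟨integrable_finsetSum _ hI, ?_⟩
  rw [integral_finsetSum _ hI]
  refine Finset.sum_congr rfl fun z _ => ?_
  rw [integral_indicator_const _ (measurableSet_sq z), real_volume_sq, one_smul]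

lemma integral_flR (s : Finset GaussianInt) (f : GaussianInt → ℝ) :
    Integrable (fun w : ℂ => ∑ z ∈ s, (sq z).indicator (fun _ => f z) w) ∧
    ∫ w : ℂ, ∑ z ∈ s, (sq z).indicator (fun _ => f z) w = ∑ z ∈ s, f z := by
  have hI : ∀ z ∈ s, Integrable ((sq z).indicator (fun _ => f z)) := by
    intro z _
    rw [integrable_indicator_iff (measurableSet_sq z)]
    exact integrableOn_const (by rw [volume_sq]; simp) (by simp)
  refine ⟨integrable_finsetSum _ hI, ?_⟩
  rw [integral_finsetSum _ hI]
  refine Finset.sum_congr rfl fun z _ => ?_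
  rw [integral_indicator_const _ (measurableSet_sq z), real_volume_sq, one_smul]

open scoped Classical in
lemma sum_indicator_sq {E : Type*} [AddCommMonoid E] (s : Finset GaussianInt) (f : GaussianInt → E)
    (w : ℂ) : ∑ z ∈ s, (sq z).indicator (fun _ => f z) w = if fl w ∈ s then f (fl w) else 0 := by
  split_ifs with h
  · rw [Finset.sum_eq_single (fl w)]
    · exact Set.indicator_of_mem (mem_sq.2 rfl) _
    · intro z _ hz
      exact Set.indicator_of_notMem (fun h2 => hz (mem_sq.1 h2).symm) _
    · exact fun h2 => absurd h h2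
  · apply Finset.sum_eq_zero
    intro z hz
    exact Set.indicator_of_notMem (fun h2 => h ((mem_sq.1 h2) ▸ hz)) _

lemma real_volume_closedBall (r : ℝ) (hr : 0 ≤ r) :
    volume.real (Metric.closedBall (0 : ℂ) r) = Real.pi * r ^ 2 := by
  rw [Measure.real, Complex.volume_closedBall]
  rw [ENNReal.toReal_mul, ENNReal.toReal_pow, ENNReal.toReal_ofReal hr]
  simp [mul_comm]

/-- comparison of the sum and the integral -/
theorem comp (f : ℂ → ℂ) (hf : Measurable f) (hb : ∀ w, ‖f w‖ ≤ 1) (L : ℝ) (hL : 0 ≤ L)
    (hLip : ∀ w : ℂ, fl w ≠ 0 → ‖f w - f (toComplex (fl w))‖ ≤ L / Real.sqrt (nm (fl w)))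
    (X : ℝ) (hX : 1 ≤ X) :
    ‖∑ z ∈ ball X, f (toComplex z) - ∫ w in Metric.closedBall (0 : ℂ) (Real.sqrt X), f w‖ ≤
      L * ∑ z ∈ ball X, 1 / Real.sqrt (nm z) + 20 * Real.pi * Real.sqrt X := by
  classical
  set R : ℝ := Real.sqrt X with hR
  have hR1 : 1 ≤ R := by
    rw [hR]; rw [Real.one_le_sqrt]; exact hX
  have hR2 : R ^ 2 = X := Real.sq_sqrt (by linarith)
  obtain ⟨g1, g2⟩ := integral_fl (ball X) (fun z => f (toComplex z))
  obtain ⟨k1, k2⟩ := integral_flR (ball X) (fun z => L * (1 / Real.sqrt (nm z)))
  -- the exceptional set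
  set A : Set ℂ := Metric.closedBall (0 : ℂ) (R + 2) \ Metric.ball (0 : ℂ) (R - 2) with hA
  set B : Set ℂ := Metric.closedBall (0 : ℂ) 2 with hB
  have hAm : MeasurableSet A := Metric.isClosed_closedBall.measurableSet.diff
    Metric.isOpen_ball.measurableSet
  have hBm : MeasurableSet B := Metric.isClosed_closedBall.measurableSet
  have hAfin : volume A ≠ ⊤ := ((measure_mono Set.sdiff_subset).trans_lt
    measure_closedBall_lt_top).ne
  have hBfin : volume B ≠ ⊤ := measure_closedBall_lt_top.ne
  have hAI : Integrable (A.indicator (fun _ => (1 : ℝ))) := by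
    rw [integrable_indicator_iff hAm]
    exact integrableOn_const hAfin (by simp)
  have hBI : Integrable (B.indicator (fun _ => (1 : ℝ))) := by
    rw [integrable_indicator_iff hBm]
    exact integrableOn_const hBfin (by simp)
  have hABI : Integrable (fun w => A.indicator (fun _ => (1 : ℝ)) w +
      B.indicator (fun _ => (1 : ℝ)) w) := hAI.add hBI
  have hA2 : ∫ w, A.indicator (fun _ => (1 : ℝ)) w ≤ 16 * Real.pi * R := by
    rw [integral_indicator_const _ hAm, smul_eq_mul, mul_one]
    rcases le_or_gt 2 R with h2 | h2
    · have e1 : volume.real A = Real.pi * (R + 2) ^ 2 - Real.pi * (R - 2) ^ 2 := by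
        rw [hA, measureReal_sdiff (h₁ := measure_closedBall_lt_top.ne)]
        · rw [real_volume_closedBall _ (by linarith)]
          congr 1
          rw [Measure.real, Complex.volume_ball]
          rw [ENNReal.toReal_mul, ENNReal.toReal_pow, ENNReal.toReal_ofReal (by linarith)]
          simp [mul_comm]
        · exact (Metric.ball_subset_ball (by linarith)).trans Metric.ball_subset_closedBall
        · exact Metric.isOpen_ball.measurableSet
      rw [e1]
      have := Real.pi_pos
      nlinarith
    · have e1 : volume.real A ≤ Real.pi * (R + 2) ^ 2 := by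
        rw [← real_volume_closedBall _ (by linarith)]
        exact measureReal_mono Set.sdiff_subset measure_closedBall_lt_top.ne
      have := Real.pi_pos
      have h3 : (R + 2) ^ 2 ≤ 16 * R := by nlinarith
      nlinarith
  have hB2 : ∫ w, B.indicator (fun _ => (1 : ℝ)) w ≤ 4 * Real.pi * R := by
    rw [integral_indicator_const _ hBm, smul_eq_mul, mul_one, hB, real_volume_closedBall _ (by norm_num)]
    have := Real.pi_pos
    nlinarith
  -- the integral over the disc
  have hf1 : IntegrableOn f (Metric.closedBall (0 : ℂ) R) := by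
    refine Measure.integrableOn_of_bounded (M := 1) measure_closedBall_lt_top.ne
      hf.aestronglyMeasurable ?_
    exact Filter.Eventually.of_forall hb
  have hD : MeasurableSet (Metric.closedBall (0 : ℂ) R) := Metric.isClosed_closedBall.measurableSet
  have hf2 : Integrable ((Metric.closedBall (0 : ℂ) R).indicator f) :=
    (integrable_indicator_iff hD).2 hf1
  rw [← g2, ← integral_indicator hD, ← integral_sub g1 hf2]
  refine (norm_integral_le_integral_norm _).trans ?_
  have hle : ∀ w : ℂ, ‖∑ z ∈ ball X, (sq z).indicator (fun _ => f (toComplex z)) w -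
      (Metric.closedBall (0 : ℂ) R).indicator f w‖ ≤
      ∑ z ∈ ball X, (sq z).indicator (fun _ => L * (1 / Real.sqrt (nm z))) w +
      (A.indicator (fun _ => (1 : ℝ)) w + B.indicator (fun _ => (1 : ℝ)) w) := by
    intro w
    rw [sum_indicator_sq, sum_indicator_sq]
    have hA0 : 0 ≤ A.indicator (fun _ => (1 : ℝ)) w := Set.indicator_nonneg (fun _ _ => zero_le_one) _
    have hB0 : 0 ≤ B.indicator (fun _ => (1 : ℝ)) w := Set.indicator_nonneg (fun _ _ => zero_le_one) _
    have hd := norm_sub_fl w
    have hn1 : ‖w‖ ≤ ‖toComplex (fl w)‖ + 2 := by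
      have := norm_sub_norm_le w (toComplex (fl w)); linarith
    have hn2 : ‖toComplex (fl w)‖ ≤ ‖w‖ + 2 := by
      have := norm_sub_norm_le (toComplex (fl w)) w
      rw [norm_sub_rev] at this
      linarith
    split_ifs with h
    · have h' := h
      rw [mem_ball] at h
      by_cases hw : w ∈ Metric.closedBall (0 : ℂ) R
      · rw [Set.indicator_of_mem hw, norm_sub_rev]
        have h1 := hLip w (one_le_nm.1 h.1)
        rw [div_eq_mul_one_div] at h1
        linarith
      · rw [Set.indicator_of_notMem hw, sub_zero]
        have h3 : w ∈ A := by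
          rw [hA, Set.mem_sdiff, Metric.mem_closedBall, dist_zero_right, Metric.mem_ball,
            dist_zero_right]
          rw [Metric.mem_closedBall, dist_zero_right, not_le] at hw
          refine ⟨?_, by linarith⟩
          have h4 : ‖toComplex (fl w)‖ ≤ R := by
            rw [norm_toComplex, hR]
            exact Real.sqrt_le_sqrt h.2
          linarith
        rw [Set.indicator_of_mem h3]
        have h5 := hb (toComplex (fl w))
        have h6 : 0 ≤ L * (1 / Real.sqrt (nm (fl w))) := by positivity
        linarith
    · rw [zero_sub, norm_neg]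
      by_cases hw : w ∈ Metric.closedBall (0 : ℂ) R
      · rw [Set.indicator_of_mem hw]
        rw [mem_ball, not_and_or, not_le, not_le] at h
        rcases h with h | h
        · have h3 : w ∈ B := by
            rw [hB, Metric.mem_closedBall, dist_zero_right]
            have h4 : fl w = 0 := nm_eq_zero.1 (by omega)
            rw [h4] at hn1
            simpa using hn1
          rw [Set.indicator_of_mem h3]
          have := hb w
          linarith
        · have h3 : w ∈ A := by
            rw [hA, Set.mem_sdiff, Metric.mem_closedBall, dist_zero_right, Metric.mem_ball,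
              dist_zero_right]
            rw [Metric.mem_closedBall, dist_zero_right] at hw
            refine ⟨by linarith, ?_⟩
            have h4 : R ≤ ‖toComplex (fl w)‖ := by
              rw [norm_toComplex, hR]
              exact Real.sqrt_le_sqrt h.le
            linarith
          rw [Set.indicator_of_mem h3]
          have := hb w
          linarith
      · rw [Set.indicator_of_notMem hw, norm_zero]
        linarith
  calc ∫ w, ‖∑ z ∈ ball X, (sq z).indicator (fun _ => f (toComplex z)) w -
      (Metric.closedBall (0 : ℂ) R).indicator f w‖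
      ≤ ∫ w, (∑ z ∈ ball X, (sq z).indicator (fun _ => L * (1 / Real.sqrt (nm z))) w +
      (A.indicator (fun _ => (1 : ℝ)) w + B.indicator (fun _ => (1 : ℝ)) w)) :=
        integral_mono (g1.sub hf2).norm (k1.add hABI) hle
    _ = ∑ z ∈ ball X, L * (1 / Real.sqrt (nm z)) +
        ((∫ w, A.indicator (fun _ => (1 : ℝ)) w) + ∫ w, B.indicator (fun _ => (1 : ℝ)) w) := by
        rw [integral_add k1 hABI, k2, integral_add hAI hBI]
    _ ≤ _ := by
        rw [← Finset.mul_sum]
        linarith

end Pool.Agent.W64.GM
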