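import Pool.Agent.W64.GM.Area

/-!
Project GM (helper78), task GM-F (helper64): lattice points.
-/

set_option autoImplicit false

namespace Pool.Agent.W64.GM

open Finset MeasureTheory
open Pool.Agent.W78.GM
open GaussianInt (toComplex)

/-- Gauss circle problem, trivial error -/
theorem lat1 (X : ℝ) (hX : 1 ≤ X) :
    |((ball X).card : ℝ) - Real.pi * X| ≤ 20 * Real.pi * Real.sqrt X := by
  have h := comp (fun _ => 1) measurable_const (fun _ => by simp) 0 le_rfl (fun w _ => by simp) X hX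
  have h1 : ∫ w in Metric.closedBall (0 : ℂ) (Real.sqrt X), (1 : ℂ) = ((Real.pi * X : ℝ) : ℂ) := by
    rw [setIntegral_const, real_volume_closedBall _ (Real.sqrt_nonneg _),
      Real.sq_sqrt (by linarith)]
    simp
  rw [h1] at h
  have h2 : ∑ z ∈ ball X, (1 : ℂ) = (((ball X).card : ℝ) : ℂ) := by simp
  rw [h2, ← Complex.ofReal_sub, Complex.norm_real, Real.norm_eq_abs] at h
  linarith

/-- the number of Gaussian integers of norm `n` -/
noncomputable def rr (n : ℕ) : ℝ := (((ball n).filter (fun z => nm z = n)).card : ℝ)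

lemma filter_ball (n : ℕ) (X : ℝ) (hn : (n : ℝ) ≤ X) :
    (ball X).filter (fun z => nm z = n) = (ball n).filter (fun z => nm z = n) := by
  ext z
  rw [mem_filter, mem_filter, mem_ball, mem_ball]
  constructor
  · rintro ⟨⟨h1, _⟩, h3⟩
    exact ⟨⟨h1, by rw [h3]⟩, h3⟩
  · rintro ⟨⟨h1, _⟩, h3⟩
    exact ⟨⟨h1, by rw [h3]; exact hn⟩, h3⟩

lemma rr_zero : rr 0 = 0 := by
  unfold rr
  have : (ball ((0 : ℕ) : ℝ)).filter (fun z => nm z = 0) = ∅ := by
    apply Finset.filter_false_of_mem
    intro z hz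
    rw [mem_ball] at hz
    omega
  rw [this]
  simp

lemma sum_rr (X : ℝ) (hX : 0 ≤ X) : ∑ n ∈ Icc 0 ⌊X⌋₊, rr n = ((ball X).card : ℝ) := by
  have h1 : ∀ z ∈ ball X, nm z ∈ Icc 0 ⌊X⌋₊ := by
    intro z hz
    rw [mem_ball] at hz
    rw [Finset.mem_Icc]
    exact ⟨Nat.zero_le _, Nat.le_floor hz.2⟩
  rw [Finset.card_eq_sum_card_fiberwise h1]
  push_cast
  refine Finset.sum_congr rfl fun n hn => ?_
  rw [Finset.mem_Icc] at hn
  unfold rr
  rw [filter_ball n X ((Nat.cast_le.2 hn.2).trans (Nat.floor_le hX))]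

lemma sum_ann (f : ℕ → ℝ) (A B : ℝ) (hA : 0 ≤ A) (hAB : A ≤ B) :
    ∑ z ∈ ann A B, f (nm z) = ∑ n ∈ Ioc ⌊A⌋₊ ⌊B⌋₊, f n * rr n := by
  have h1 : ∀ z ∈ ann A B, nm z ∈ Ioc ⌊A⌋₊ ⌊B⌋₊ := by
    intro z hz
    rw [mem_ann] at hz
    rw [Finset.mem_Ioc]
    exact ⟨(Nat.floor_lt hA).2 hz.2.1, Nat.le_floor hz.2.2⟩
  rw [← Finset.sum_fiberwise_of_maps_to h1]
  refine Finset.sum_congr rfl fun n hn => ?_
  rw [Finset.mem_Ioc] at hn
  have h2 : (ann A B).filter (fun z => nm z = n) = (ball n).filter (fun z => nm z = n) := by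
    ext z
    rw [mem_filter, mem_filter, mem_ball, mem_ann]
    constructor
    · rintro ⟨⟨h1, _⟩, h3⟩
      exact ⟨⟨h1, by rw [h3]⟩, h3⟩
    · rintro ⟨⟨h1, _⟩, h3⟩
      refine ⟨⟨h1, ?_, ?_⟩, h3⟩
      · rw [h3]
        exact (Nat.floor_lt hA).1 hn.1
      · rw [h3]
        exact (Nat.cast_le.2 hn.2).trans (Nat.floor_le (hA.trans hAB))
  rw [h2]
  have h3 : ∀ z ∈ (ball n).filter (fun z => nm z = n), f (nm z) = f n := by
    intro z hz
    rw [(Finset.mem_filter.1 hz).2]
  rw [Finset.sum_congr rfl h3, Finset.sum_const, nsmul_eq_mul, mul_comm]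
  rfl

theorem lat2 (A B : ℝ) (hA : 1 ≤ A) (hAB : A ≤ B) :
    |∑ z ∈ ann A B, 1 / (nm z : ℝ) - Real.pi * Real.log (B / A)| ≤
      80 * Real.pi / Real.sqrt A := by
  set C : ℝ := 20 * Real.pi with hC
  have hC0 : 0 ≤ C := by positivity
  have hA0 : 0 < A := by linarith
  have hB0 : 0 < B := by linarith
  have habel := sum_mul_eq_sub_sub_integral_mul rr (f := fun t : ℝ => 1 / t) hA0.le hAB
    (fun t ht => by
      have : t ≠ 0 := by have := ht.1; intro h; rw [h] at this; linarith
      exact (differentiableAt_const _).div differentiableAt_id this)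
    (by
      have hd : ∀ t ∈ Set.Icc A B, deriv (fun t : ℝ => 1 / t) t = -(1 / t ^ 2) := by
        intro t ht
        have h0 : t ≠ 0 := by have := ht.1; intro h; rw [h] at this; linarith
        simp only [one_div]
        rw [deriv_inv']
      apply ContinuousOn.integrableOn_Icc
      refine ContinuousOn.congr (f := fun t : ℝ => -(1 / t ^ 2)) ?_ hd
      apply ContinuousOn.neg
      apply ContinuousOn.div continuousOn_const (by fun_prop)
      intro t ht
      have : 0 < t := lt_of_lt_of_le hA0 ht.1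
      positivity)
  rw [sum_ann (fun n => 1 / (n : ℝ)) A B hA0.le hAB, habel, sum_rr A hA0.le, sum_rr B hB0.le]
  -- error function
  set E : ℝ → ℝ := fun t => ((ball t).card : ℝ) - Real.pi * t with hE
  have hEb : ∀ t : ℝ, 1 ≤ t → |E t| ≤ C * Real.sqrt t := fun t ht => lat1 t ht
  have hint : ∫ t in Set.Ioc A B, deriv (fun t : ℝ => 1 / t) t * ∑ k ∈ Icc 0 ⌊t⌋₊, rr k =
      -(∫ t in Set.Ioc A B, (Real.pi * t⁻¹ + E t / t ^ 2)) := by
    rw [← integral_neg]
    apply setIntegral_congr_fun measurableSet_Ioc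
    intro t ht
    have h0 : 0 < t := hA0.trans ht.1
    simp only
    rw [sum_rr t h0.le]
    simp only [one_div]
    rw [deriv_inv']
    simp only [hE]
    field_simp
    ring
  have hI1 : IntegrableOn (fun t : ℝ => deriv (fun t : ℝ => 1 / t) t * ∑ k ∈ Icc 0 ⌊t⌋₊, rr k)
      (Set.Icc A B) := by
    apply integrableOn_mul_sum_Icc rr hA0.le
    have hd : ∀ t ∈ Set.Icc A B, deriv (fun t : ℝ => 1 / t) t = -(1 / t ^ 2) := by
      intro t ht
      have h0 : t ≠ 0 := by have := ht.1; intro h; rw [h] at this; linarith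
      simp only [one_div]
      rw [deriv_inv']
    apply ContinuousOn.integrableOn_Icc
    refine ContinuousOn.congr (f := fun t : ℝ => -(1 / t ^ 2)) ?_ hd
    apply ContinuousOn.neg
    apply ContinuousOn.div continuousOn_const (by fun_prop)
    intro t ht
    have : 0 < t := lt_of_lt_of_le hA0 ht.1
    positivity
  have hI2 : IntegrableOn (fun t : ℝ => Real.pi * t⁻¹) (Set.Ioc A B) := by
    apply IntegrableOn.mono_set _ Set.Ioc_subset_Icc_self
    apply ContinuousOn.integrableOn_Icc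
    apply ContinuousOn.mul continuousOn_const
    apply ContinuousOn.inv₀ continuousOn_id
    intro t ht
    have : 0 < t := lt_of_lt_of_le hA0 ht.1
    exact this.ne'
  have hI3 : IntegrableOn (fun t : ℝ => E t / t ^ 2) (Set.Ioc A B) := by
    have h1 := ((hI1.mono_set Set.Ioc_subset_Icc_self).neg).sub hI2
    refine (integrableOn_congr_fun ?_ measurableSet_Ioc).1 h1
    intro t ht
    have h0 : 0 < t := hA0.trans ht.1
    simp only [Pi.sub_apply, Pi.neg_apply]
    rw [sum_rr t h0.le]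
    simp only [one_div]
    rw [deriv_inv']
    simp only [hE]
    field_simp
  have hlog : ∫ t in Set.Ioc A B, Real.pi * t⁻¹ = Real.pi * Real.log (B / A) := by
    rw [integral_const_mul, ← intervalIntegral.integral_of_le hAB,
      integral_inv_of_pos hA0 hB0]
  have hEi : |∫ t in Set.Ioc A B, E t / t ^ 2| ≤ 2 * C / Real.sqrt A := by
    have h1 : ∀ t ∈ Set.Ioc A B, |E t / t ^ 2| ≤ C * t ^ (-(3 / 2) : ℝ) := by
      intro t ht
      have h0 : 0 < t := hA0.trans ht.1
      have h2 := hEb t (hA.trans ht.1.le)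
      rw [abs_div, abs_of_pos (by positivity : (0 : ℝ) < t ^ 2), div_le_iff₀ (by positivity)]
      have key : Real.sqrt t = t ^ (-(3 / 2) : ℝ) * t ^ 2 := by
        rw [Real.sqrt_eq_rpow, ← Real.rpow_natCast t 2, ← Real.rpow_add h0]
        norm_num
      calc |E t| ≤ C * Real.sqrt t := h2
        _ = C * t ^ (-(3 / 2) : ℝ) * t ^ 2 := by
            rw [key]; ring
    have h2 : IntegrableOn (fun t : ℝ => C * t ^ (-(3 / 2) : ℝ)) (Set.Ioc A B) := by
      apply IntegrableOn.mono_set _ Set.Ioc_subset_Icc_self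
      apply ContinuousOn.integrableOn_Icc
      apply ContinuousOn.mul continuousOn_const
      intro t ht
      have : 0 < t := lt_of_lt_of_le hA0 ht.1
      exact (Real.continuousAt_rpow_const t _ (Or.inl this.ne')).continuousWithinAt
    calc |∫ t in Set.Ioc A B, E t / t ^ 2| ≤ ∫ t in Set.Ioc A B, |E t / t ^ 2| :=
          abs_integral_le_integral_abs
      _ ≤ ∫ t in Set.Ioc A B, C * t ^ (-(3 / 2) : ℝ) :=
          setIntegral_mono_on hI3.abs h2 measurableSet_Ioc h1
      _ = C * ((B ^ (-(1 / 2) : ℝ) - A ^ (-(1 / 2) : ℝ)) / (-(1 / 2))) := by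
          rw [integral_const_mul, ← intervalIntegral.integral_of_le hAB, integral_rpow]
          · norm_num
          · right
            constructor
            · norm_num
            · rw [Set.uIcc_of_le hAB]
              intro h
              linarith [h.1]
      _ ≤ 2 * C / Real.sqrt A := by
          have h3 : A ^ (-(1 / 2) : ℝ) = 1 / Real.sqrt A := by
            rw [Real.rpow_neg hA0.le, Real.sqrt_eq_rpow]
            ring
          have h4 : 0 ≤ B ^ (-(1 / 2) : ℝ) := Real.rpow_nonneg hB0.le _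
          have h5 : (B ^ (-(1 / 2) : ℝ) - A ^ (-(1 / 2) : ℝ)) / (-(1 / 2)) ≤ 2 * (1 / Real.sqrt A) := by
            rw [← h3, div_le_iff_of_neg (by norm_num)]
            linarith
          calc C * ((B ^ (-(1 / 2) : ℝ) - A ^ (-(1 / 2) : ℝ)) / (-(1 / 2)))
              ≤ C * (2 * (1 / Real.sqrt A)) := mul_le_mul_of_nonneg_left h5 hC0
            _ = _ := by ring
  rw [hint, integral_add hI2 hI3, hlog]
  have hsA : 0 < Real.sqrt A := Real.sqrt_pos.2 hA0
  have hsB : 0 < Real.sqrt B := Real.sqrt_pos.2 hB0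
  have e1 : |E A / A| ≤ C / Real.sqrt A := by
    rw [abs_div, abs_of_pos hA0, div_le_div_iff₀ hA0 hsA]
    calc |E A| * Real.sqrt A ≤ C * Real.sqrt A * Real.sqrt A :=
          mul_le_mul_of_nonneg_right (hEb A hA) hsA.le
      _ = C * A := by rw [mul_assoc, Real.mul_self_sqrt hA0.le]
  have e2 : |E B / B| ≤ C / Real.sqrt A := by
    have e3 : |E B / B| ≤ C / Real.sqrt B := by
      rw [abs_div, abs_of_pos hB0, div_le_div_iff₀ hB0 hsB]
      calc |E B| * Real.sqrt B ≤ C * Real.sqrt B * Real.sqrt B :=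
            mul_le_mul_of_nonneg_right (hEb B (hA.trans hAB)) hsB.le
        _ = C * B := by rw [mul_assoc, Real.mul_self_sqrt hB0.le]
    exact e3.trans (div_le_div_of_nonneg_left hC0 hsA (Real.sqrt_le_sqrt hAB))
  have e4 : 1 / B * ((ball B).card : ℝ) - 1 / A * ((ball A).card : ℝ) -
      -(Real.pi * Real.log (B / A) + ∫ t in Set.Ioc A B, E t / t ^ 2) -
      Real.pi * Real.log (B / A) = E B / B - E A / A + ∫ t in Set.Ioc A B, E t / t ^ 2 := by
    simp only [hE]
    field_simp
    ring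
  rw [e4]
  have e5 := abs_add_le (E B / B - E A / A) (∫ t in Set.Ioc A B, E t / t ^ 2)
  have e6 := abs_sub (E B / B) (E A / A)
  have e7 : 80 * Real.pi / Real.sqrt A = C / Real.sqrt A + C / Real.sqrt A + 2 * C / Real.sqrt A := by
    rw [hC]; ring
  rw [e7]
  linarith

/-- task GM-F -/
theorem lat : S_LAT := by
  refine ⟨80 * Real.pi, by positivity, ?_, lat2⟩
  intro X hX
  refine (lat1 X hX).trans ?_
  have := Real.pi_pos
  have h2 := Real.sqrt_nonneg X
  nlinarith [mul_nonneg this.le h2]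

end Pool.Agent.W64.GM
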